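import Pool.Agent.Y793.H.Res

/-!
# Hofstadter's set generated by `ab - 1`: positive lower density in residue classes

`A` is the smallest set of integers which contains `2` and `3` and contains `a b - 1` whenever it
contains `a` and `b`. For all `m ≥ 1` and all `r`: the residue class of `r` modulo `m` is disjoint
from `A` if it lies in the class of `1` modulo `3` (so `3 ∣ m` and `r ≡ 1 (mod 3)`), and otherwise
the part of `A` in this residue class has positive lower asymptotic density.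
The case `m = 1` is the question of Hofstadter.
-/

set_option autoImplicit false

namespace Pool.Agent.Results.MP_81a89f_nt.ResidueClasses

open Hof211

/-- `A`: the intersection of all sets of integers that contain `2` and `3` and contain
`a * b - 1` whenever they contain `a` and `b` (`a = b` allowed). -/
def A : Set ℤ := ⋂₀ {S : Set ℤ | 2 ∈ S ∧ 3 ∈ S ∧ ∀ a ∈ S, ∀ b ∈ S, a * b - 1 ∈ S}

/-- The number of the elements `n` of `A` with `1 ≤ n ≤ N` and `n ≡ r (mod m)`. -/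
noncomputable def countA (m : ℕ) (r : ℤ) (N : ℕ) : ℕ :=
  (A ∩ {n : ℤ | 1 ≤ n ∧ n ≤ N ∧ n ≡ r [ZMOD m]}).ncard

lemma mem_A {n : ℕ} (h : HofN n) : (n : ℤ) ∈ A := by
  intro S hS
  obtain ⟨h2, h3, hmul⟩ := hS
  induction h with
  | two => exact_mod_cast h2
  | three => exact_mod_cast h3
  | @mul x y hx hy ihx ihy =>
    have h4 : 1 ≤ x * y := by
      have := Nat.mul_le_mul (Y793.Hof.hofN_ge hx) (Y793.Hof.hofN_ge hy)
      omega
    have h5 := hmul _ ihx _ ihy
    push_cast [Nat.cast_sub h4]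
    exact h5

lemma of_mem_A {n : ℤ} (h : n ∈ A) : ∃ x : ℕ, HofN x ∧ (x : ℤ) = n := by
  have := h {n : ℤ | ∃ x : ℕ, HofN x ∧ (x : ℤ) = n} ⟨⟨2, HofN.two, rfl⟩, ⟨3, HofN.three, rfl⟩, by
    rintro _ ⟨x, hx, rfl⟩ _ ⟨y, hy, rfl⟩
    have h4 : 1 ≤ x * y := by
      have := Nat.mul_le_mul (Y793.Hof.hofN_ge hx) (Y793.Hof.hofN_ge hy)
      omega
    exact ⟨x * y - 1, HofN.mul hx hy, by push_cast [Nat.cast_sub h4]; ring⟩⟩
  exact this

lemma finite_part (m : ℕ) (r : ℤ) (N : ℕ) :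
    (A ∩ {n : ℤ | 1 ≤ n ∧ n ≤ N ∧ n ≡ r [ZMOD m]}).Finite :=
  (Set.finite_Icc (1 : ℤ) N).subset fun _ h => ⟨h.2.1, h.2.2.1⟩

lemma countA_le (m : ℕ) (r : ℤ) (N : ℕ) : countA m r N ≤ N := by
  unfold countA
  have h1 := Set.ncard_le_ncard (s := A ∩ {n : ℤ | 1 ≤ n ∧ n ≤ N ∧ n ≡ r [ZMOD m]})
    (t := Set.Icc (1 : ℤ) N) (fun _ h => ⟨h.2.1, h.2.2.1⟩) (Set.finite_Icc _ _)
  have h2 : (Set.Icc (1 : ℤ) N).ncard = N := by
    rw [← Finset.coe_Icc, Set.ncard_coe_finset, Int.card_Icc]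
    simp
  omega

lemma cnt_le {m : ℕ} {r : ℤ} {a x : ℕ} (ha : HofN a) (hx : HofN x)
    (hxm : (m : ℤ) ∣ 0 - x) (ham : (m : ℤ) ∣ (-r - 1) - a) (M N : ℕ) (hMN : a * x * M ≤ N) :
    cnt M ≤ countA m r N := by
  classical
  have ha2 := Y793.Hof.hofN_ge ha
  have hx2 := Y793.Hof.hofN_ge hx
  unfold cnt countA
  have hinj : Function.Injective (fun n : ℕ => (a : ℤ) * (x * n - 1) - 1) := by
    intro n n' h
    have h1 : (a : ℤ) * (x * n - 1) = a * (x * n' - 1) := sub_left_inj.1 h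
    have h2 := mul_left_cancel₀ (by positivity : (a : ℤ) ≠ 0) h1
    have h3 : (x : ℤ) * n = x * n' := sub_left_inj.1 h2
    exact_mod_cast mul_left_cancel₀ (by positivity : (x : ℤ) ≠ 0) h3
  have h1 : ((((Finset.Icc 1 M).filter HofN).image
      (fun n : ℕ => (a : ℤ) * (x * n - 1) - 1) : Finset ℤ) : Set ℤ) ⊆
      A ∩ {n : ℤ | 1 ≤ n ∧ n ≤ N ∧ n ≡ r [ZMOD m]} := by
    intro k hk
    obtain ⟨n, hn, rfl⟩ := Finset.mem_image.mp (Finset.mem_coe.mp hk)
    obtain ⟨h2, h3⟩ := Finset.mem_filter.mp hn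
    rw [Finset.mem_Icc] at h2
    have hn2 := Y793.Hof.hofN_ge h3
    have hxn : 4 ≤ x * n := by
      have := Nat.mul_le_mul hx2 hn2
      omega
    have e1 : ((x * n - 1 : ℕ) : ℤ) = x * n - 1 := by
      rw [Nat.cast_sub (by omega)]; push_cast; ring
    have h5 : 1 ≤ a * (x * n - 1) := Nat.mul_pos (by omega) (by omega)
    have e2 : ((a * (x * n - 1) - 1 : ℕ) : ℤ) = (a : ℤ) * (x * n - 1) - 1 := by
      rw [Nat.cast_sub h5, Nat.cast_mul, e1]; push_cast; ring
    have hmem : HofN (a * (x * n - 1) - 1) := HofN.mul ha (HofN.mul hx h3)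
    refine ⟨?_, ?_, ?_, ?_⟩
    · show (a : ℤ) * (x * n - 1) - 1 ∈ A
      rw [← e2]; exact mem_A hmem
    · show 1 ≤ (a : ℤ) * (x * n - 1) - 1
      rw [← e2]
      have := Y793.Hof.hofN_ge hmem
      exact_mod_cast (by omega : 1 ≤ a * (x * n - 1) - 1)
    · show (a : ℤ) * (x * n - 1) - 1 ≤ N
      have h6 : a * x * n ≤ a * x * M := Nat.mul_le_mul_left _ h2.2
      have h7 : ((a * x * n : ℕ) : ℤ) ≤ N := by exact_mod_cast h6.trans hMN
      push_cast at h7
      nlinarith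
    · show (a : ℤ) * (x * n - 1) - 1 ≡ r [ZMOD m]
      rw [Int.modEq_iff_dvd]
      obtain ⟨u, hu⟩ := hxm
      obtain ⟨v, hv⟩ := ham
      refine ⟨-v + (a : ℤ) * n * u, ?_⟩
      have hx' : (x : ℤ) = -(m * u) := by linarith
      have hr' : r = -(m * v) - 1 - a := by linarith
      rw [hx', hr']
      ring
  have h4 := Set.ncard_le_ncard h1 (finite_part m r N)
  rw [Set.ncard_coe_finset, Finset.card_image_of_injective _ hinj] at h4
  exact h4

/-- **Hofstadter's set in residue classes.** Let `m ≥ 1` and let `r` be an integer. If `3 ∣ m` and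
`r ≡ 1 (mod 3)` then no element of `A` is congruent to `r` modulo `m`. In all other cases the set
of the elements of `A` that are congruent to `r` modulo `m` has positive lower density. -/
theorem result (m : ℕ) (hm : 1 ≤ m) (r : ℤ) :
    (3 ∣ m ∧ r ≡ 1 [ZMOD 3] → ∀ n ∈ A, ¬ n ≡ r [ZMOD m]) ∧
    (¬ (3 ∣ m ∧ r ≡ 1 [ZMOD 3]) →
      0 < Filter.liminf (fun N : ℕ => (countA m r N : ℝ) / N) Filter.atTop) := by
  constructor
  · rintro ⟨⟨q, rfl⟩, hr⟩ n hn hnr
    obtain ⟨x, hx, rfl⟩ := of_mem_A hn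
    have h1 := Y793.Hof.mod_three hx
    have h2 : (x : ℤ) ≡ r [ZMOD 3] := by
      refine Int.ModEq.of_mul_right (q : ℤ) ?_
      simpa using hnr
    have h3 : (x : ℤ) % 3 = 1 := h2.trans hr
    omega
  · intro hr
    have hr' : ¬ (3 ∣ m ∧ (-r - 1) % 3 = 1) := by
      rintro ⟨h1, h2⟩
      exact hr ⟨h1, show r % 3 = 1 % 3 by omega⟩
    obtain ⟨x, hx, hxm⟩ := Y793.Hof.exists_mem (m := m) (by omega) 0 (by simp)
    obtain ⟨a, ha, ham⟩ := Y793.Hof.exists_mem (m := m) (by omega) (-r - 1) hr'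
    have ha2 := Y793.Hof.hofN_ge ha
    have hx2 := Y793.Hof.hofN_ge hx
    obtain ⟨c, hc, h⟩ := Hof211.main
    have hax : 0 < a * x := by positivity
    have haxR : (0 : ℝ) < (a * x : ℕ) := by exact_mod_cast hax
    refine lt_of_lt_of_le (show (0 : ℝ) < c / (2 * (a * x : ℕ)) by positivity) ?_
    refine Filter.le_liminf_of_le ?_ ?_
    · refine Filter.IsBoundedUnder.isCoboundedUnder_ge ⟨1, ?_⟩
      rw [Filter.eventually_map]
      filter_upwards [Filter.eventually_ge_atTop 1] with N hN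
      have hN' : (0 : ℝ) < N := by exact_mod_cast hN
      rw [div_le_one hN']
      exact_mod_cast countA_le m r N
    · filter_upwards [Filter.eventually_ge_atTop (2 * (a * x))] with N hN
      have hN0 : 0 < N := by omega
      have hN' : (0 : ℝ) < N := by exact_mod_cast hN0
      have hM2 : 2 ≤ N / (a * x) := (Nat.le_div_iff_mul_le hax).2 hN
      have h1 := h (N / (a * x)) hM2
      have h2 := cnt_le ha hx hxm ham (N / (a * x)) N (Nat.mul_div_le _ _)
      have h3 : N < a * x * (N / (a * x) + 1) := Nat.lt_mul_div_succ N hax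
      have h4 : N ≤ 2 * (a * x) * (N / (a * x)) := by nlinarith
      have h5 : (N : ℝ) ≤ 2 * (a * x : ℕ) * (N / (a * x) : ℕ) := by exact_mod_cast h4
      have h6 : (cnt (N / (a * x)) : ℝ) ≤ countA m r N := by exact_mod_cast h2
      rw [le_div_iff₀ hN', div_mul_eq_mul_div, div_le_iff₀ (by positivity)]
      nlinarith [mul_le_mul_of_nonneg_left h5 hc.le, mul_le_mul_of_nonneg_left (h1.trans h6) haxR.le]

end Pool.Agent.Results.MP_81a89f_nt.ResidueClasses
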